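import Pool.Agent.Helper320.LCMain

set_option autoImplicit false

/-!
Small Lipschitz conjugates of `C^1` circle groups without resilient pairs.

The circle is `AddCircle 1`, with its quotient metric (the arc length metric). For a finite
symmetric set `S` of `C^1` circle diffeomorphisms such that the group generated by `S` has no
resilient pair, and every `ε > 0`, there is a homeomorphism `h` of the circle such that each
`h s h⁻¹`, `s ∈ S`, is Lipschitz with constant `exp ε`.

Idea of the proof: the function `M x = sup over words w of exp (-ε |w|) w'(x)` is integrable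
(this uses the absence of resilient pairs), and `h` is the normalised primitive of `M`.
-/

namespace Pool.Agent.Results.MP_12d91b_an.SmallLipschitz

/-- The circle `ℝ/ℤ` (its metric is the arc length metric). -/
abbrev Circ : Type := AddCircle (1 : ℝ)

/-- A homeomorphism of the circle is a `C^1` diffeomorphism when it has a `C^1` lift to the line
whose derivative never vanishes. -/
def IsC1Diffeo (f : Circ ≃ₜ Circ) : Prop :=
  ∃ F : ℝ → ℝ, ContDiff ℝ 1 F ∧ (∀ x : ℝ, deriv F x ≠ 0) ∧
    ∀ x : ℝ, f (x : Circ) = (F x : Circ)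

/-- `G` contains a resilient pair: elements `f, g` and points `x, y` of the circle such that
`x, f x, f y, g x, g y, y` are distinct and occur in this order along an arc starting at `x`.
Here `x, y` are the classes of `t₀, t₅`. -/
def HasResilientPair (G : Subgroup (Circ ≃ₜ Circ)) : Prop :=
  ∃ f ∈ G, ∃ g ∈ G, ∃ t₀ t₁ t₂ t₃ t₄ t₅ : ℝ,
    t₀ < t₁ ∧ t₁ < t₂ ∧ t₂ < t₃ ∧ t₃ < t₄ ∧ t₄ < t₅ ∧ t₅ < t₀ + 1 ∧
    f (t₀ : Circ) = (t₁ : Circ) ∧ f (t₅ : Circ) = (t₂ : Circ) ∧
    g (t₀ : Circ) = (t₃ : Circ) ∧ g (t₅ : Circ) = (t₄ : Circ)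

/-- Sanity check: a group of rotations has no resilient pair. -/
theorem no_pair_of_rotations (G : Subgroup (Circ ≃ₜ Circ))
    (hG : ∀ g ∈ G, ∃ c : Circ, ∀ x : Circ, g x = x + c) : ¬ HasResilientPair G := by
  rintro ⟨f, hf, g, hg, t₀, t₁, t₂, t₃, t₄, t₅, h01, h12, h23, h34, h45, h50, hf0, hf5, hg0, hg5⟩
  obtain ⟨c, hc⟩ := hG f hf
  rw [hc] at hf0 hf5
  have h1 : ((t₅ - t₀ - (t₂ - t₁) : ℝ) : Circ) = 0 := by
    rw [AddCircle.coe_sub, AddCircle.coe_sub, AddCircle.coe_sub, ← hf0, ← hf5]
    abel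
  rw [AddCircle.coe_eq_zero_iff] at h1
  obtain ⟨n, hn⟩ := h1
  rw [zsmul_eq_mul, mul_one] at hn
  have h2 : (0 : ℝ) < n := by rw [hn]; linarith
  have h3 : (n : ℝ) < 1 := by rw [hn]; linarith
  have h4 : (0 : ℤ) < n := by exact_mod_cast h2
  have h5 : n < (1 : ℤ) := by exact_mod_cast h3
  omega

/-- Every group generated by a finite symmetric set `S` of `C^1` circle diffeomorphisms and having
no resilient pair can be conjugated, for every `ε > 0`, by a homeomorphism of the circle into a
group of Lipschitz homeomorphisms, in such a way that the conjugates of the elements of `S` are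
Lipschitz with constant `exp ε`. -/
theorem result (S : Set (Circ ≃ₜ Circ)) (hfin : S.Finite) (hsym : ∀ s ∈ S, s⁻¹ ∈ S)
    (hC1 : ∀ s ∈ S, IsC1Diffeo s) (hres : ¬ HasResilientPair (Subgroup.closure S))
    (ε : ℝ) (hε : 0 < ε) :
    ∃ h : Circ ≃ₜ Circ, ∀ s ∈ S,
      LipschitzWith (Real.toNNReal (Real.exp ε)) (fun x => h (s (h.symm x))) :=
  Pool.Agent.Helper320.LC.main S hfin hsym hC1 hres ε hε

end Pool.Agent.Results.MP_12d91b_an.SmallLipschitz
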