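import Pool.Agent.Helper320.LCMain

set_option autoImplicit false

/-!
Small Lipschitz conjugates of `C^1` circle groups without resilient pairs: the version in which
only resilient pairs of orientation preserving elements are excluded.

For groups of orientation preserving diffeomorphisms this is the same hypothesis as the absence of
resilient pairs. In general it is a weaker hypothesis, so the theorem covers both readings of the
question for groups that contain orientation reversing elements.
-/

namespace Pool.Agent.Results.MP_12d91b_an.SmallLipschitzOriented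

/-- The circle `ℝ/ℤ` (its metric is the arc length metric). -/
abbrev Circ : Type := AddCircle (1 : ℝ)

/-- A homeomorphism of the circle is a `C^1` diffeomorphism when it has a `C^1` lift to the line
whose derivative never vanishes. -/
def IsC1Diffeo (f : Circ ≃ₜ Circ) : Prop :=
  ∃ F : ℝ → ℝ, ContDiff ℝ 1 F ∧ (∀ x : ℝ, deriv F x ≠ 0) ∧
    ∀ x : ℝ, f (x : Circ) = (F x : Circ)

/-- `f` preserves the orientation of the circle: it has an increasing continuous lift. -/
def IsOrientationPreserving (f : Circ ≃ₜ Circ) : Prop :=
  ∃ F : ℝ → ℝ, Continuous F ∧ StrictMono F ∧ ∀ x : ℝ, f (x : Circ) = (F x : Circ)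

/-- The set `T` of circle homeomorphisms contains a resilient pair: elements `f, g` of `T` and
points `x, y` of the circle such that `x, f x, f y, g x, g y, y` are distinct and occur in this
order along an arc starting at `x`. Here `x, y` are the classes of `t₀, t₅`. -/
def HasResilientPair (T : Set (Circ ≃ₜ Circ)) : Prop :=
  ∃ f ∈ T, ∃ g ∈ T, ∃ t₀ t₁ t₂ t₃ t₄ t₅ : ℝ,
    t₀ < t₁ ∧ t₁ < t₂ ∧ t₂ < t₃ ∧ t₃ < t₄ ∧ t₄ < t₅ ∧ t₅ < t₀ + 1 ∧
    f (t₀ : Circ) = (t₁ : Circ) ∧ f (t₅ : Circ) = (t₂ : Circ) ∧
    g (t₀ : Circ) = (t₃ : Circ) ∧ g (t₅ : Circ) = (t₄ : Circ)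

/-- Let `S` be a finite symmetric set of `C^1` circle diffeomorphisms such that the orientation
preserving elements of the group generated by `S` form no resilient pair. Then for every `ε > 0`
some homeomorphism of the circle conjugates every element of `S` to a Lipschitz map with constant
`exp ε`. -/
theorem result (S : Set (Circ ≃ₜ Circ)) (hfin : S.Finite) (hsym : ∀ s ∈ S, s⁻¹ ∈ S)
    (hC1 : ∀ s ∈ S, IsC1Diffeo s)
    (hres : ¬ HasResilientPair {g | g ∈ Subgroup.closure S ∧ IsOrientationPreserving g})
    (ε : ℝ) (hε : 0 < ε) :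
    ∃ h : Circ ≃ₜ Circ, ∀ s ∈ S,
      LipschitzWith (Real.toNNReal (Real.exp ε)) (fun x => h (s (h.symm x))) :=
  Pool.Agent.Helper320.LC.main_robust S hfin hsym hC1 hres ε hε

/-- The hypothesis of `result` follows from the absence of resilient pairs in the whole group. -/
theorem no_pair_of_subset {T T' : Set (Circ ≃ₜ Circ)} (h : T ⊆ T') (h' : ¬ HasResilientPair T') :
    ¬ HasResilientPair T := by
  rintro ⟨f, hf, g, hg, hrest⟩
  exact h' ⟨f, h hf, g, h hg, hrest⟩

end Pool.Agent.Results.MP_12d91b_an.SmallLipschitzOriented
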